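import Mathlib

set_option autoImplicit false

/-!
# A strictly `G`-additive Steiner 2-design that is not `G`-regular

The affine plane `AG(2,4)` is strictly `G`-additive for `G = Z_4 × Z_2 × Z_2`, and no
`2-(16,4,1)` design is `G`-regular for this group.
-/

namespace Pool.Agent.Results.MP_6c2242_co.AdditiveNotRegular

/-- `𝓑` is the set of blocks of a `2-(v,k,1)` design on the point set `V`, where `v = |V|`. -/
def IsSteinerDesign {V : Type} [Fintype V] (𝓑 : Set (Finset V)) (k : ℕ) : Prop :=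
  2 ≤ k ∧ k ≤ Fintype.card V ∧ (∀ B ∈ 𝓑, B.card = k) ∧
    ∀ x y : V, x ≠ y → ∃! B, B ∈ 𝓑 ∧ x ∈ B ∧ y ∈ B

/-- There is a bijection from the points to `G` such that every block is zero-sum. -/
def StrictlyAdditive (G : Type) [AddCommGroup G] {V : Type} (𝓑 : Set (Finset V)) : Prop :=
  ∃ f : V ≃ G, ∀ B ∈ 𝓑, ∑ b ∈ B, f b = 0

/-- Some group of automorphisms which is isomorphic to `G` is sharply transitive on the points. -/
def IsRegularFor (G : Type) [AddCommGroup G] {V : Type} (𝓑 : Set (Finset V)) : Prop :=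
  ∃ H : Subgroup (Equiv.Perm V), Nonempty (Multiplicative G ≃* H) ∧
    (∀ h ∈ H, (fun B : Finset V => B.map h.toEmbedding) '' 𝓑 = 𝓑) ∧
    ∀ x y : V, ∃! h : H, h.1 x = y

/-- the group of the example -/
abbrev G : Type := ZMod 4 × ZMod 2 × ZMod 2

theorem parity_lemma : ∀ g g' : G, g.1.val % 2 = g'.1.val % 2 → (g' - g) + (g' - g) = 0 := by
  decide +kernel

/-- no `2-(16,4,1)` design is `G`-regular for `G = Z_4 × Z_2 × Z_2` -/
theorem not_regular {V : Type} [Fintype V] [DecidableEq V] [Nonempty V] (𝓑 : Set (Finset V))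
    (hd : IsSteinerDesign 𝓑 4) : ¬ IsRegularFor G 𝓑 := by
  rintro ⟨H, ⟨iso⟩, haut, hreg⟩
  obtain ⟨-, -, hcard, hpair⟩ := hd
  -- the action of the group
  let a : G → Equiv.Perm V := fun g => (iso (Multiplicative.ofAdd g)).1
  have ha0 : a 0 = 1 := by
    change (iso (Multiplicative.ofAdd (0 : G))).1 = 1
    rw [ofAdd_zero, map_one]
    rfl
  have hadd : ∀ g g' x, a (g + g') x = a g (a g' x) := by
    intro g g' x
    change (iso (Multiplicative.ofAdd (g + g'))).1 x = _
    rw [ofAdd_add, map_mul]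
    rfl
  have haB : ∀ g, ∀ B ∈ 𝓑, B.map (a g).toEmbedding ∈ 𝓑 := by
    intro g B hB
    have h1 := haut (a g) (iso (Multiplicative.ofAdd g)).2
    rw [← h1]
    exact ⟨B, hB, rfl⟩
  have hfree : ∀ g x, a g x = x → g = 0 := by
    intro g x hx
    have h1 := (hreg x x).unique (y₁ := iso (Multiplicative.ofAdd g))
      (y₂ := iso (Multiplicative.ofAdd 0)) hx (by
        change a 0 x = x
        rw [ha0]
        rfl)
    exact Multiplicative.ofAdd.injective (iso.injective h1)
  have htrans : ∀ x y, ∃ g, a g x = y := by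
    intro x y
    obtain ⟨h, hh, -⟩ := hreg x y
    refine ⟨Multiplicative.toAdd (iso.symm h), ?_⟩
    change (iso (Multiplicative.ofAdd (Multiplicative.toAdd (iso.symm h)))).1 x = y
    rw [ofAdd_toAdd, MulEquiv.apply_symm_apply]
    exact hh
  have huniq : ∀ x y, x ≠ y → ∀ B ∈ 𝓑, ∀ B' ∈ 𝓑, x ∈ B → y ∈ B → x ∈ B' → y ∈ B' → B = B' := by
    intro x y hxy B hB B' hB' h1 h2 h3 h4
    exact (hpair x y hxy).unique ⟨hB, h1, h2⟩ ⟨hB', h3, h4⟩
  have hmem : ∀ g x (B : Finset V), x ∈ B → a g x ∈ B.map (a g).toEmbedding := by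
    intro g x B hx
    exact Finset.mem_map_of_mem _ hx
  -- a block with two points in the same orbit of an involution is fixed
  have h1 : ∀ t : G, t + t = 0 → t ≠ 0 → ∀ B ∈ 𝓑, ∀ x ∈ B, a t x ∈ B →
      B.map (a t).toEmbedding = B := by
    intro t ht ht0 B hB x hx hx'
    apply huniq (a t x) x (fun h => ht0 (hfree t x h)) _ (haB t B hB) _ hB (hmem t x B hx) _ hx' hx
    have h2 := hmem t _ B hx'
    rwa [← hadd, ht, ha0] at h2
  -- every block is fixed by an involution
  obtain ⟨x0⟩ := ‹Nonempty V›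
  have h2 : ∀ B ∈ 𝓑, ∃ t : G, t + t = 0 ∧ t ≠ 0 ∧ B.map (a t).toEmbedding = B := by
    intro B hB
    choose c hc using fun y => htrans x0 y
    obtain ⟨x, hx, y, hy, hxy, hp⟩ := Finset.exists_ne_map_eq_of_card_lt_of_maps_to
      (s := B) (t := Finset.range 2) (f := fun y => (c y).1.val % 2) (by
        rw [hcard B hB, Finset.card_range]
        norm_num) (by
        intro y _
        simp only [Finset.coe_range, Set.mem_Iio]
        exact Nat.mod_lt _ (by norm_num))
    have h3 := parity_lemma (c x) (c y) hp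
    have h4 : a (c y - c x) x = y := by
      have : a (c y - c x) (a (c x) x0) = a (c y) x0 := by
        rw [← hadd, sub_add_cancel]
      rwa [hc, hc] at this
    refine ⟨c y - c x, h3, ?_, ?_⟩
    · intro h
      rw [h, ha0] at h4
      exact hxy h4
    · apply h1 _ h3 _ B hB x hx
      · rw [h4]
        exact hy
      · intro h
        rw [h, ha0] at h4
        exact hxy h4
  -- two blocks fixed by the same involution are equal or disjoint, so a block which meets its
  -- image is fixed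
  have h3 : ∀ g : G, ∀ B ∈ 𝓑, ∀ z ∈ B, a g z ∈ B → B.map (a g).toEmbedding = B := by
    intro g B hB z hz hz'
    obtain ⟨t, ht, ht0, hB'⟩ := h2 B hB
    have hclosed : ∀ y ∈ B, a t y ∈ B := by
      intro y hy
      have := hmem t y B hy
      rwa [hB'] at this
    apply huniq (a g z) (a t (a g z)) (fun h => ht0 (hfree t _ h.symm)) _ (haB g B hB) _ hB
      (hmem g z B hz) _ hz' (hclosed _ hz')
    rw [← hadd, add_comm, hadd]
    exact hmem g _ B (hclosed z hz)
  -- two elements of order four with the same square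
  have h4 : ∀ g : G, g ≠ 0 → ∀ B ∈ 𝓑, x0 ∈ B → a g x0 ∈ B → ∀ y ∈ B, a g y ∈ B := by
    intro g _ B hB hx hx' y hy
    have := hmem g y B hy
    rwa [h3 g B hB x0 hx hx'] at this
  have hne : ∀ g : G, g ≠ 0 → x0 ≠ a g x0 := fun g hg h => hg (hfree g x0 h.symm)
  obtain ⟨B, ⟨hB, hx, hgx⟩, -⟩ := hpair x0 (a (1, 0, 0) x0) (hne _ (by decide))
  obtain ⟨B', ⟨hB', hx', hgx'⟩, -⟩ := hpair x0 (a (1, 1, 0) x0) (hne _ (by decide))
  have e1 : a (2, 0, 0) x0 ∈ B := by
    have := h4 (1, 0, 0) (by decide) B hB hx hgx _ hgx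
    rw [← hadd] at this
    exact this
  have e2 : a (3, 0, 0) x0 ∈ B := by
    have := h4 (1, 0, 0) (by decide) B hB hx hgx _ e1
    rw [← hadd] at this
    exact this
  have e3 : a (2, 0, 0) x0 ∈ B' := by
    have := h4 (1, 1, 0) (by decide) B' hB' hx' hgx' _ hgx'
    rw [← hadd] at this
    exact this
  have e4 : B = B' := huniq x0 (a (2, 0, 0) x0) (hne _ (by decide)) B hB B' hB' hx e1 hx' e3
  rw [← e4] at hgx'
  have hinj : Function.Injective fun g => a g x0 := by
    intro g g' h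
    have h5 : a (g - g') (a g' x0) = a g' x0 := by
      rw [← hadd, sub_add_cancel]
      exact h
    exact sub_eq_zero.1 (hfree _ _ h5)
  have h5 : (({(0, 0, 0), (1, 0, 0), (2, 0, 0), (3, 0, 0), (1, 1, 0)} : Finset G).map
      ⟨fun g => a g x0, hinj⟩) ⊆ B := by
    intro y hy
    rw [Finset.mem_map] at hy
    obtain ⟨g, hg, rfl⟩ := hy
    change a g x0 ∈ B
    simp only [Finset.mem_insert, Finset.mem_singleton] at hg
    rcases hg with rfl | rfl | rfl | rfl | rfl
    · have : a (0, 0, 0) x0 = x0 := by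
        change a 0 x0 = x0
        rw [ha0]
        rfl
      rw [this]
      exact hx
    · exact hgx
    · exact e1
    · exact e2
    · exact hgx'
  have h6 := Finset.card_le_card h5
  rw [Finset.card_map, hcard B hB] at h6
  exact absurd h6 (by decide)

/-- the lines of the plane `AG(2,4)`; the point `4a+2b+c` has the label `(a,b,c)` -/
def line : Fin 20 → Finset (Fin 16) := ![
  {0, 1, 4, 13}, {0, 2, 8, 10}, {0, 3, 7, 12}, {0, 5, 6, 11},
  {0, 9, 14, 15}, {1, 2, 5, 14}, {1, 3, 9, 11}, {1, 6, 7, 8},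
  {1, 10, 12, 15}, {2, 3, 6, 15}, {2, 4, 7, 9}, {2, 11, 12, 13},
  {3, 4, 5, 10}, {3, 8, 13, 14}, {4, 6, 12, 14}, {4, 8, 11, 15},
  {5, 7, 13, 15}, {5, 8, 9, 12}, {6, 9, 10, 13}, {7, 10, 11, 14}]

/-- the labelling of the points -/
def label : Fin 16 ≃ G where
  toFun i := (⟨i.val / 4, by change _ < 4; omega⟩, ⟨i.val / 2 % 2, by change _ < 2; omega⟩,
    ⟨i.val % 2, by change _ < 2; omega⟩)
  invFun g := ⟨4 * ZMod.val g.1 + 2 * ZMod.val g.2.1 + ZMod.val g.2.2, by
    have h1 := ZMod.val_lt g.1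
    have h2 := ZMod.val_lt g.2.1
    have h3 := ZMod.val_lt g.2.2
    omega⟩
  left_inv := by
    intro i
    apply Fin.ext
    change 4 * (i.val / 4) + 2 * (i.val / 2 % 2) + i.val % 2 = i.val
    omega
  right_inv := by decide +kernel

theorem line_card : ∀ i, (line i).card = 4 := by decide +kernel

theorem line_sum : ∀ i, ∑ b ∈ line i, label b = 0 := by decide +kernel

theorem line_unique : ∀ i j, i ≠ j → (line i ∩ line j).card ≤ 1 := by
  decide +kernel

theorem line_exists : ∀ x y : Fin 16, ∃ i, x ∈ line i ∧ y ∈ line i := by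
  decide +kernel

theorem isSteinerDesign : IsSteinerDesign (Set.range line) 4 := by
  refine ⟨by norm_num, by decide +kernel, ?_, ?_⟩
  · rintro _ ⟨i, rfl⟩
    exact line_card i
  · intro x y hxy
    obtain ⟨i, hx, hy⟩ := line_exists x y
    refine ⟨line i, ⟨⟨i, rfl⟩, hx, hy⟩, ?_⟩
    rintro _ ⟨⟨j, rfl⟩, hx', hy'⟩
    by_cases hij : j = i
    · rw [hij]
    · exfalso
      have h1 := line_unique j i hij
      rw [Finset.card_le_one] at h1
      exact hxy (h1 x (Finset.mem_inter.2 ⟨hx', hx⟩) y (Finset.mem_inter.2 ⟨hy', hy⟩))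

/-- **Main theorem.** A strictly `G`-additive `2-(16,4,1)` design which is not `G`-regular, for
`G = Z_4 × Z_2 × Z_2`. -/
theorem result : ∃ 𝓑 : Set (Finset (Fin 16)),
    IsSteinerDesign 𝓑 4 ∧ StrictlyAdditive (ZMod 4 × ZMod 2 × ZMod 2) 𝓑 ∧
      ¬ IsRegularFor (ZMod 4 × ZMod 2 × ZMod 2) 𝓑 := by
  refine ⟨Set.range line, isSteinerDesign, ?_, ?_⟩
  · refine ⟨label, ?_⟩
    rintro _ ⟨i, rfl⟩
    exact line_sum i
  · exact not_regular _ isSteinerDesign

end Pool.Agent.Results.MP_6c2242_co.AdditiveNotRegular
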